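import Pool.Agent.PST.StmtsU

/-! Squad PST, row DVD. -/

set_option autoImplicit false

namespace Pool.Agent.PST.H82

/-- row DVD -/
theorem dvd : U.DvdStmt := by
  classical
  intro S L _ _ _ _ _ _ r hr
  let b := Module.Free.chooseBasis S L
  let f : L →ₗ[S] L := LinearMap.mulRight S r
  let M := LinearMap.toMatrix b b f
  have hM : ∀ a : L, M.mulVec (b.repr a) = b.repr (a * r) := fun a =>
    LinearMap.toMatrix_mulVec_repr b b f a
  refine ⟨b.equivFun.symm (M.adjugate.mulVec (b.repr 1)), M.det, ?_, ?_⟩
  · intro h0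
    obtain ⟨v, hv, hv0⟩ := Matrix.exists_mulVec_eq_zero_iff.2 h0
    apply hv
    have h1 : ((b.repr (b.equivFun.symm v) : _ →₀ S) : _ → S) = v := b.equivFun.apply_symm_apply v
    have h2 : b.equivFun.symm v * r = 0 := by
      have h3 := hM (b.equivFun.symm v)
      rw [h1, hv0] at h3
      apply b.repr.injective
      apply DFunLike.coe_injective
      rw [← h3, map_zero]
      rfl
    have h4 := hr _ h2
    rw [← h1, h4, map_zero]
    rfl
  · apply b.repr.injective
    apply DFunLike.coe_injective
    have h1 : ((b.repr (b.equivFun.symm (M.adjugate.mulVec (b.repr 1))) : _ →₀ S) : _ → S) =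
        M.adjugate.mulVec (b.repr 1) := b.equivFun.apply_symm_apply _
    rw [← hM, h1, Matrix.mulVec_mulVec, Matrix.mul_adjugate, map_smul, Matrix.smul_mulVec,
      Matrix.one_mulVec]
    rfl

end Pool.Agent.PST.H82
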