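import Pool.Agent.PST.StmtsK4

/-! Squad PST, row VTA. -/

set_option autoImplicit false

open scoped BigOperators

namespace Pool.Agent.PST.H82

open Pool.Agent.PSS

/-- row VTA -/
theorem vta (hon : HonStmt) (dex : DexStmt) (dzc : DzcStmt) : VtaStmt := by
  intro ℓ _ F V E A K _ _ _ _ _ _ _ φ α lam x y W n la δ z hP hRF hW hla hδ hδW hz hδz hsp
  have hinv : ∀ v : V, α v⁻¹ * α v = 1 := fun v => by rw [← map_mul, inv_mul_cancel, map_one]
  have hinv' : ∀ v : V, α v * α v⁻¹ = 1 := fun v => by rw [← map_mul, mul_inv_cancel, map_one]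
  obtain ⟨a, y₀, ha, -, hq⟩ := hon ℓ F V E A φ α W n la (fun v => δ (α v) * α v⁻¹) hP hW hsp
    (by
      intro u v
      have h1 : α (u * v)⁻¹ = α v⁻¹ * α u⁻¹ := by rw [← map_mul, mul_inv_rev]
      simp only [map_mul α u v]
      rw [hδ, h1]
      calc (δ (α u) * α v + α u * δ (α v)) * (α v⁻¹ * α u⁻¹)
          = δ (α u) * (α v * α v⁻¹) * α u⁻¹ + α u * (δ (α v) * α v⁻¹) * α u⁻¹ := by noncomm_ring
        _ = _ := by rw [hinv', mul_one])
    (by
      intro w hw
      simp only [hδW w hw, zero_mul])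
  choose D hD hDv using fun l => dex F V E A K φ α lam x y (la l) hP hRF (hla l)
  refine ⟨a, y₀, D, ha, hq, hD, hDv, ?_⟩
  let δ' : A →ₗ[F] A := δ + (LinearMap.mulLeft F y₀ - LinearMap.mulRight F y₀)
  have hδ' : ∀ s, δ' s = δ s + (y₀ * s - s * y₀) := fun s => rfl
  have h1 := dzc F V A K (Fin n) α lam x y δ' D la a hRF
    (by
      intro s t
      rw [hδ', hδ', hδ', hδ]
      noncomm_ring)
    hD hDv ha
    (by
      intro v
      have h2 := hq v
      have h3 : δ (α v) = (δ (α v) * α v⁻¹) * α v := by rw [mul_assoc, hinv, mul_one]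
      rw [hδ', h3, h2, add_mul, sub_mul, Finset.sum_mul, mul_assoc (α v * y₀), hinv, mul_one]
      have h4 : ∀ S : A, S + (α v * y₀ - y₀ * α v) + (y₀ * α v - α v * y₀) = S := fun S => by
        abel
      rw [h4]
      exact Finset.sum_congr rfl fun l _ => smul_mul_assoc _ _ _)
    z hz
  have h2 : δ' z = 0 := by
    rw [hδ', hδz, hz y₀, sub_self, add_zero]
  rw [h2, mul_zero] at h1
  exact h1.symm

end Pool.Agent.PST.H82
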